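import Pool.Agent.MP_b04567_ag.Cp.Main

namespace Pool.Agent.Results.MP_b04567_ag.AllCurvesCharP

universe u

/-- Over an algebraically closed field of positive characteristic, the homogeneous prime ideal of
an irreducible curve in projective `(n+3)`-space is the radical of an ideal generated by `n+2`
forms. The case `n = 0` is that of curves in projective 3-space and two surfaces. -/
theorem result (k : Type u) [Field k] [IsAlgClosed k] (p : ℕ) [Fact p.Prime] [CharP k p] (n : ℕ)
    (P : Ideal (MvPolynomial (Fin (n + 4)) k)) (s : Finset (MvPolynomial (Fin (n + 4)) k))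
    (hP : P.IsPrime) (hdim : ringKrullDim (MvPolynomial (Fin (n + 4)) k ⧸ P) = 2)
    (hs : ∀ f ∈ s, ∃ d : ℕ, f.IsHomogeneous d)
    (hspan : Ideal.span (s : Set (MvPolynomial (Fin (n + 4)) k)) = P) :
    ∃ f : Fin (n + 2) → MvPolynomial (Fin (n + 4)) k, (∀ i, ∃ d : ℕ, (f i).IsHomogeneous d) ∧
      (Ideal.span (Set.range f)).radical = P :=
  H39c.Pn.pn p (H39c.main p) k n P s hP hdim hs hspan

end Pool.Agent.Results.MP_b04567_ag.AllCurvesCharP
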