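import Pool.Agent.MP_b04567_ag.Mg.Normal

open Pool.Agent.MP_b04567_ag

/-- A curve of bidegree (k, k+1) on the smooth quadric with a k-secant ruling line of contact at
least k-1 at some point is the intersection of two surfaces. -/
theorem Pool.Agent.Results.MP_b04567_ag.Contact.result (k : ℕ) (hk : 2 ≤ k) (c : ℕ → ℕ → ℂ)
    (s₀ t₀ u₀ v₀ a b : ℂ) (hst : s₀ ≠ 0 ∨ t₀ ≠ 0) (huv : u₀ ≠ 0 ∨ v₀ ≠ 0) (hab : a ≠ 0 ∨ b ≠ 0)
    (hfib : ∀ s t : ℂ,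
      biform k (k + 1) c s t u₀ v₀ = (t₀ * s - s₀ * t) ^ (k - 1) * (a * s + b * t))
    (hline : ∃ u v : ℂ, biform k (k + 1) c s₀ t₀ u v ≠ 0) :
    CutByTwo (curveCone k (k + 1) c) := by
  obtain ⟨m, rfl⟩ : ∃ m, k = m + 2 := ⟨k - 2, by omega⟩
  exact (cut_contact (BH.biform (m + 2) (m + 3) c) hst huv hab hfib hline).cutByTwo
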