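import Pool.Agent.MP_b04567_ag.Mg.Normal

open Pool.Agent.MP_b04567_ag

/-- Every curve of bidegree (3, 4) on the smooth quadric that contains no line of either ruling is
the intersection of two surfaces. -/
theorem Pool.Agent.Results.MP_b04567_ag.Septic.result (c : ℕ → ℕ → ℂ)
    (h1 : ∀ u v : ℂ, u ≠ 0 ∨ v ≠ 0 → ∃ s t : ℂ, biform 3 4 c s t u v ≠ 0)
    (h2 : ∀ s t : ℂ, s ≠ 0 ∨ t ≠ 0 → ∃ u v : ℂ, biform 3 4 c s t u v ≠ 0) :
    CutByTwo (curveCone 3 4 c) :=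
  (cut_septic (BH.biform 3 4 c) h1 h2).cutByTwo
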