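import Pool.Agent.MP_b04567_ag.Mg.Third

open Pool.Agent.MP_b04567_ag

/-- A curve of bidegree (3n+1, 3n+2) on the smooth quadric with a ruling line of contact at least
2n+1 at some point is the intersection of two surfaces. -/
theorem Pool.Agent.Results.MP_b04567_ag.TwoThirds.result (n : ℕ) (hn : 1 ≤ n) (c : ℕ → ℕ → ℂ)
    (s₀ t₀ u₀ v₀ : ℂ) (d : ℕ → ℂ) (hst : s₀ ≠ 0 ∨ t₀ ≠ 0) (huv : u₀ ≠ 0 ∨ v₀ ≠ 0)
    (hfib : ∀ s t : ℂ, biform (3 * n + 1) (3 * n + 2) c s t u₀ v₀ =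
      (t₀ * s - s₀ * t) ^ (2 * n + 1) * ∑ i ∈ Finset.range (n + 1), d i * s ^ i * t ^ (n - i))
    (hne : ∃ s t u v : ℂ, biform (3 * n + 1) (3 * n + 2) c s t u v ≠ 0) :
    CutByTwo (curveCone (3 * n + 1) (3 * n + 2) c) := by
  obtain ⟨m, rfl⟩ : ∃ m, n = m + 1 := ⟨n - 1, by omega⟩
  refine (cut_two_thirds (m := m) (BH.biform (3 * m + 4) (3 * m + 5) c)
    (BH.biform (m + 1) 0 fun i _ => d i) hst huv (fun s t => ?_) hne).cutByTwo
  refine (hfib s t).trans ?_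
  simp [biform, mul_add]
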